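import Pool.Agent.H671R2.CK.Final

/-!
# Compressions of CONVEX SET IN 3D

Adapted from `Pool.Agent.H671R2.CK.Final` (the case of kernels).
-/

set_option autoImplicit false

namespace Pool.Agent.Y403.CK3

open Pool.Agent.CK Pool.Agent.NPC Pool.Agent.H622R2 Pool.Agent.NPC.R671

/-- The answer to the question `A` about a finite set of points in space (in general position,
given by a list without repetitions) and a string depends only on the string, the number of the
points and the orientations of the quadruples of points; it may also depend on the orientations of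
the quadruples that contain some of the four points `0, (1,0,0), (0,1,0), (0,0,1)`. -/
def OrderTypeProblem (A : List QPt → List Bool → Prop) : Prop :=
  ∀ (S S' : List QPt) (x : List Bool), S.Nodup → GeneralPosition S → S'.Nodup →
    GeneralPosition S' → SameO S S' → (A S x ↔ A S' x)

/-- `F` is a compression of CONVEX SET IN 3D, parameterized by `k`, into the problem `A` about
points in space and strings; its output has at most `g k` points (with coordinates of any length)
and at most `g k` bits. -/
def IsCompression (A : List QPt → List Bool → Prop) (F : List Bool → List Bool) (g : ℕ → ℕ) :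
    Prop :=
  PolyTime F ∧ ∀ (S : List QPt) (k : ℕ), IsInstance S k →
    ∃ (S' : List QPt) (x : List Bool), F (bits (S, k)) = bits (S', x) ∧ S'.Nodup ∧
      GeneralPosition S' ∧ (HasConvexSubset S k ↔ A S' x) ∧ S'.length ≤ g k ∧ x.length ≤ g k

/-- what is kept of the output of the compression -/
def comp' (F : List Bool → List Bool) (red : List Bool → Form) (xs : List (List Bool)) :
    Option ((ℕ × ℕ × List (Bool × Bool)) × List Bool) :=
  (unbits (List RPt × List Bool) (F (bits (inst (xs.map red), instK (xs.map red))))).map
    fun y => (summary (y.1, 0), y.2)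

theorem poly_comp' {F : List Bool → List Bool} {red : List Bool → Form} (hF : PolyTime F)
    (hred : Poly red) : Poly (comp' F red) := by
  have h1 : Poly (fun xs : List (List Bool) => xs.map red) :=
    NPC.Poly.map (F := fun _ x => red x) NPC.Poly.id (hred.comp (NPC.Poly.snd NPC.Poly.id))
  have h2 : Poly (fun xs : List (List Bool) => (inst (xs.map red), instK (xs.map red))) :=
    poly_inst h1
  have h3 : Poly (fun xs : List (List Bool) => bits (inst (xs.map red), instK (xs.map red))) :=
    poly_bits.comp h2
  have h4 := (poly_of_polyTime hF).comp h3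
  have h5 := (poly_unbits (α := List RPt × List Bool)).comp h4
  have h6 : Poly (fun y : List RPt × List Bool => (summary (y.1, 0), y.2)) := by
    refine NPC.Poly.pair ?_ (NPC.Poly.snd NPC.Poly.id)
    exact poly_summary.comp (NPC.Poly.pair (NPC.Poly.fst NPC.Poly.id) (NPC.Poly.const 0))
  exact NPC.Poly.optMap_fp (h := fun _ (y : List RPt × List Bool) => (summary (y.1, 0), y.2)) h5
    (h6.comp (NPC.Poly.snd NPC.Poly.id))

theorem bits_raw' (S : List QPt) (x : List Bool) :
    bits ((S, x) : List QPt × List Bool) = bits ((S.map raw, x) : List RPt × List Bool) := by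
  have h : ∀ S : List QPt, toT S = toT (S.map raw) := by
    intro S
    induction S with
    | nil => rfl
    | cons p S ih =>
      show T.node (toT p) (toT S) = T.node (toT (raw p)) (toT (S.map raw))
      rw [ih]
      rfl
  show (T.node (toT S) (toT x)).enc = (T.node (toT (S.map raw)) (toT x)).enc
  rw [h]

theorem main' {A : List QPt → List Bool → Prop} (hA : OrderTypeProblem A)
    {F : List Bool → List Bool} {g : Polynomial ℕ} (h : IsCompression A F fun k => g.eval k) :
    CoNPSubsetNPPoly := by
  classical
  obtain ⟨hF, hker⟩ := h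
  intro L hL
  obtain ⟨red, hred, hpr, hL'⟩ := hardPr_SAT3b Lᶜ hL
  have hredP : Poly red := PC.comp (g := red) (f := fun x => x) hred rawOut
  obtain ⟨p, hp⟩ := hredP.sz_le
  obtain ⟨q1, hq1⟩ := instK_bound
  obtain ⟨q2, hq2⟩ := summary_size
  -- the output of the compression
  have key : ∀ xs : List (List Bool), ∃ (S' : List QPt) (x' : List Bool),
      comp' F red xs = some (summary (S'.map raw, 0), x') ∧ S'.Nodup ∧ GeneralPosition S' ∧
      (A S' x' ↔ ∃ x ∈ xs, x ∉ L) ∧ S'.length ≤ g.eval (instK (xs.map red)) ∧
      x'.length ≤ g.eval (instK (xs.map red)) := by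
    intro xs
    have hb : ∀ φ ∈ xs.map red, Bounded3 φ := by
      intro φ hφ
      obtain ⟨x, -, rfl⟩ := List.mem_map.1 hφ
      exact (hpr x).2.1
    obtain ⟨h1, h2⟩ := inst_iff (xs.map red) hb
    obtain ⟨S', x', h3, h4, h5, h6, h7, h8⟩ := hker _ _ h1
    refine ⟨S', x', ?_, h4, h5, ?_, h7, h8⟩
    · unfold comp'
      rw [h3, bits_raw', unbits_bits]
      rfl
    · rw [← h6, h2]
      constructor
      · rintro ⟨φ, hφ, hs⟩
        obtain ⟨x, hx, rfl⟩ := List.mem_map.1 hφ
        exact ⟨x, hx, (hL' x).2 hs⟩
      · rintro ⟨x, hx, hxL⟩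
        exact ⟨red x, List.mem_map_of_mem hx, (hL' x).1 hxL⟩
  refine fs L (comp' F red) (poly_comp' hF hredP)
    (fun y => ∃ S' x', S'.Nodup ∧ GeneralPosition S' ∧ A S' x' ∧
      y = some (summary (S'.map raw, 0), x'))
    ((q2.comp (g.comp (q1.comp (p.comp (Polynomial.C 4 * Polynomial.X + 1) + Polynomial.X))) +
      (Polynomial.C 4 * (g.comp (q1.comp (p.comp (Polynomial.C 4 * Polynomial.X + 1) +
        Polynomial.X))) + 1) + 1) + Polynomial.C 2) ?_ ?_
  · intro n xs _ hn
    obtain ⟨S', x', h1, -, -, -, h4, h4'⟩ := key xs
    have hlen : ∀ φ ∈ xs.map red, φ.length ≤ p.eval (4 * n + 1) := by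
      intro φ hφ
      obtain ⟨x, hx, rfl⟩ := List.mem_map.1 hφ
      have e1 := length_lt_sz (red x)
      have e2 := hp x
      have e3 := sz_listBool_le x
      rw [hn x hx] at e3
      have e4 := eval_mono' p e3
      omega
    have h5 := hq1 (xs.map red) _ hlen
    rw [List.length_map] at h5
    have h6 := hq2 (S'.map raw, 0)
    rw [List.length_map] at h6
    have h7 := sz_listBool_le x'
    rw [h1, sz_some, sz_pair]
    simp only [Polynomial.eval_add, Polynomial.eval_comp, Polynomial.eval_mul, Polynomial.eval_C,
      Polynomial.eval_X, Polynomial.eval_one]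
    have e5 : p.eval (4 * n + 1) ≤ p.eval (4 * (n + xs.length.size) + 1) :=
      eval_mono' p (by omega)
    have e6 : g.eval (instK (xs.map red)) ≤ g.eval (q1.eval (p.eval (4 * (n + xs.length.size) + 1) +
        (n + xs.length.size))) := eval_mono' g (h5.trans (eval_mono' q1 (by omega)))
    have e7 := h6.trans (eval_mono' q2 (h4.trans e6))
    have e8 := h4'.trans e6
    omega
  · intro n xs _ _
    obtain ⟨S', x', h1, h2, h2', h3, h4, -⟩ := key xs
    rw [h1]
    constructor
    · rintro ⟨S'', x'', i1, i1', i2, i3⟩
      rw [Option.some.injEq, Prod.mk.injEq] at i3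
      obtain ⟨i4, rfl⟩ := i3
      unfold summary at i4
      simp only [Prod.mk.injEq, List.length_map] at i4
      have hO := sameO_of_sig i4.1 i4.2.2
      exact h3.1 ((hA _ _ _ h2 h2' i1 i1' hO).2 i2)
    · intro hx
      exact ⟨S', x', h2, h2', h3.2 hx, rfl⟩

end Pool.Agent.Y403.CK3
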